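import Pool.Agent.Lib.MP_783f50_lc.FL.LFinal

/-!
In every model of ZFC and for every class `K` of sets closed under passing to sets of smaller or
equal size: every connected graph with vertex set in `K` and without a normal spanning tree has
one of the two forbidden minors of size aleph one if and only if the Fodor-type Reflection
Principle holds at every regular cardinal in `K` above aleph one.
-/

namespace Pool.Agent.Results.MP_783f50_lc.FodorReflectionLocal

open Pool.Agent.Lib.MP_2739cb_lc Pool.Agent.Lib.MP_783f50_lc

universe v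

theorem result {M : Type v} (E : M → M → Prop) (hE : IsZFC E) (w w₁ : M) (hw : IsOmega E w)
    (hw₁ : IsOmega1 E w w₁) (K : M → Prop) (hK : ∀ X Y, CardLe E X Y → K Y → K X) :
    (∀ V A, K V → IsGraph E V A → Connected E w A V → ¬ HasNST E w V A →
      (∃ U B, IsGraph E U B ∧ Connected E w B U ∧ IsAleph01 E w w₁ U B ∧ IsMinor E w U B V A) ∨
      ∃ B S, IsGraph E w₁ B ∧ Connected E w B w₁ ∧ IsStationary E w₁ S ∧ IsSGraph E w B S ∧
        IsMinor E w w₁ B V A) ↔
    ∀ κ, K κ → IsInfCard E κ → ¬ IsSingular E κ → E w₁ κ → FRPAt E w w₁ κ :=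
  @minors_iff_frpL M (zmOf E hE w w₁ hw hw₁) K hK

end Pool.Agent.Results.MP_783f50_lc.FodorReflectionLocal
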